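import Pool.Agent.R489.HB.Stm

set_option autoImplicit false

namespace Pool.Agent.R916.HB

open Finset Pool.Agent.R489.HB

variable {W : Type} [DecidableEq W]

theorem mem_fc {Φ : Finset (Finset W)} {e f : Finset W} : f ∈ fc Φ e ↔ f ∈ Φ ∧ e ⊆ f := by
  unfold fc
  rw [Finset.mem_filter]

theorem mem_edg {Φ : Finset (Finset W)} {e : Finset W} :
    e ∈ edg Φ ↔ ∃ f ∈ Φ, e ⊆ f ∧ e.card = 2 := by
  unfold edg
  simp only [Finset.mem_biUnion, Finset.mem_powersetCard]

theorem edge_form {Φ : Finset (Finset W)} {e : Finset W} {w : W} (he : e ∈ edg Φ) (hw : w ∈ e) :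
    ∃ b, b ≠ w ∧ e = {w, b} := by
  obtain ⟨_, _, _, hc⟩ := mem_edg.1 he
  obtain ⟨x, y, hxy, rfl⟩ := Finset.card_eq_two.1 hc
  rcases Finset.mem_insert.1 hw with rfl | hw
  · exact ⟨y, hxy.symm, rfl⟩
  · rw [Finset.mem_singleton] at hw
    subst hw
    exact ⟨x, hxy, Finset.pair_comm _ _⟩

theorem parA {Φ Q : Finset (Finset W)} {e a b : Finset W} (hQ : Q ⊆ Φ) (h : fc Φ e = {a, b})
    (hab : a ≠ b) (hiff : a ∈ Q ↔ b ∈ Q) : Even (fc Q e).card := by
  have ha : a ∈ fc Φ e := by rw [h]; exact Finset.mem_insert_self _ _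
  have hb : b ∈ fc Φ e := by rw [h]; exact Finset.mem_insert_of_mem (Finset.mem_singleton_self _)
  by_cases hq : a ∈ Q
  · have e1 : fc Q e = {a, b} := by
      ext f
      rw [mem_fc]
      constructor
      · rintro ⟨h1, h2⟩
        rw [← h]
        exact mem_fc.2 ⟨hQ h1, h2⟩
      · intro hf
        rcases Finset.mem_insert.1 hf with rfl | hf
        · exact ⟨hq, (mem_fc.1 ha).2⟩
        · rw [Finset.mem_singleton] at hf
          subst hf
          exact ⟨hiff.1 hq, (mem_fc.1 hb).2⟩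
    rw [e1, Finset.card_pair hab]
    exact even_two
  · have e1 : fc Q e = ∅ := by
      apply Finset.eq_empty_of_forall_notMem
      intro f hf
      have h1 := mem_fc.1 hf
      have h2 : f ∈ fc Φ e := mem_fc.2 ⟨hQ h1.1, h1.2⟩
      rw [h] at h2
      rcases Finset.mem_insert.1 h2 with rfl | h2
      · exact hq h1.1
      · rw [Finset.mem_singleton] at h2
        subst h2
        exact hq (hiff.2 h1.1)
    rw [e1, Finset.card_empty]
    exact Even.zero

theorem parB {Φ P : Finset (Finset W)} {e a b : Finset W} (hP : P ⊆ Φ) (h : fc Φ e = {a, b})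
    (ha : a ∉ P) : (fc P e).card = if b ∈ P then 1 else 0 := by
  have hb : b ∈ fc Φ e := by rw [h]; exact Finset.mem_insert_of_mem (Finset.mem_singleton_self _)
  split_ifs with hq
  · have e1 : fc P e = {b} := by
      ext f
      rw [mem_fc, Finset.mem_singleton]
      constructor
      · rintro ⟨h1, h2⟩
        have h3 : f ∈ fc Φ e := mem_fc.2 ⟨hP h1, h2⟩
        rw [h] at h3
        rcases Finset.mem_insert.1 h3 with rfl | h3
        · exact absurd h1 ha
        · exact Finset.mem_singleton.1 h3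
      · rintro rfl
        exact ⟨hq, (mem_fc.1 hb).2⟩
    rw [e1, Finset.card_singleton]
  · have e1 : fc P e = ∅ := by
      apply Finset.eq_empty_of_forall_notMem
      intro f hf
      have h1 := mem_fc.1 hf
      have h2 : f ∈ fc Φ e := mem_fc.2 ⟨hP h1.1, h1.2⟩
      rw [h] at h2
      rcases Finset.mem_insert.1 h2 with rfl | h2
      · exact ha h1.1
      · rw [Finset.mem_singleton] at h2
        subst h2
        exact hq h1.1
    rw [e1, Finset.card_empty]

theorem parC {Φ P : Finset (Finset W)} {e : Finset W} (hP : P ⊆ Φ) (hc : e.card = 2)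
    (he : e ∉ edg Φ) : (fc P e).card = 0 := by
  rw [Finset.card_eq_zero]
  apply Finset.eq_empty_of_forall_notMem
  intro f hf
  have h1 := mem_fc.1 hf
  exact he (mem_edg.2 ⟨f, hP h1.1, h1.2, hc⟩)

/-- double counting -/
theorem dcount {Φ Q : Finset (Finset W)} {x : W} (h3 : ∀ f ∈ Φ, f.card = 3)
    (hQ : Q ⊆ fc Φ {x}) : Even (∑ e ∈ (edg Φ).filter (fun e => x ∈ e), (fc Q e).card) := by
  have h := Finset.sum_card_bipartiteAbove_eq_sum_card_bipartiteBelow
    (s := (edg Φ).filter (fun e => x ∈ e)) (t := Q) (fun e f : Finset W => e ⊆ f)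
  have e1 : ∑ e ∈ (edg Φ).filter (fun e => x ∈ e), (fc Q e).card =
      ∑ e ∈ (edg Φ).filter (fun e => x ∈ e),
        (Finset.bipartiteAbove (fun e f : Finset W => e ⊆ f) Q e).card := rfl
  rw [e1, h]
  apply Finset.even_sum
  intro f hf
  have hf1 := mem_fc.1 (hQ hf)
  have hxf : x ∈ f := hf1.2 (Finset.mem_singleton_self x)
  have e2 : Finset.bipartiteBelow (fun e f : Finset W => e ⊆ f)
      ((edg Φ).filter (fun e => x ∈ e)) f = (f.erase x).image (fun b => ({x, b} : Finset W)) := by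
    ext e
    rw [Finset.mem_bipartiteBelow, Finset.mem_filter, Finset.mem_image]
    constructor
    · rintro ⟨⟨he, hxe⟩, hef⟩
      obtain ⟨b, hb, rfl⟩ := edge_form he hxe
      refine ⟨b, Finset.mem_erase.2 ⟨hb, hef ?_⟩, rfl⟩
      exact Finset.mem_insert_of_mem (Finset.mem_singleton_self _)
    · rintro ⟨b, hb, rfl⟩
      obtain ⟨hb1, hb2⟩ := Finset.mem_erase.1 hb
      have hs : ({x, b} : Finset W) ⊆ f := by
        intro c hc
        rcases Finset.mem_insert.1 hc with rfl | hc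
        · exact hxf
        · rw [Finset.mem_singleton] at hc
          rw [hc]; exact hb2
      exact ⟨⟨mem_edg.2 ⟨f, hf1.1, hs, Finset.card_pair hb1.symm⟩, Finset.mem_insert_self _ _⟩, hs⟩
  rw [e2, Finset.card_image_of_injOn, Finset.card_erase_of_mem hxf, h3 f hf1.1]
  · exact even_two
  · intro b hb c hc hbc
    have hb' : b ∈ ({x, c} : Finset W) := by
      have : b ∈ ({x, b} : Finset W) := Finset.mem_insert_of_mem (Finset.mem_singleton_self _)
      have hbc' : ({x, b} : Finset W) = {x, c} := hbc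
      rwa [hbc'] at this
    rcases Finset.mem_insert.1 hb' with h1 | h1
    · exact absurd h1 (Finset.mem_erase.1 (Finset.mem_coe.1 hb)).1
    · exact Finset.mem_singleton.1 h1

theorem oneSide {Φ : Finset (Finset W)} (hΦ : IsTri Φ) {x z y1 y2 : W} {g1 g2 : Finset W}
    {P : Finset (Finset W)} (hP : P ⊆ Φ) (hPxz : ∀ f ∈ P, ¬ ({x, z} ⊆ f)) (hxz : x ≠ z)
    (hy : y1 ≠ y2) (hy1x : y1 ≠ x) (hy1z : y1 ≠ z) (hy2x : y2 ≠ x) (hy2z : y2 ≠ z)
    (hF : fc Φ {x, z} = {{x, z, y1}, {x, z, y2}})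
    (hg1 : fc Φ {x, y1} = {{x, z, y1}, g1}) (hg2 : fc Φ {x, y2} = {{x, z, y2}, g2})
    (hev : ∀ b, b ≠ x → b ≠ z → b ≠ y1 → b ≠ y2 → {x, b} ∈ edg Φ → Even (fc P {x, b}).card) :
    (g1 ∉ P ∧ ∀ f ∈ P, x ∉ f) ∨ (g1 ∈ P ∧ ∀ f ∈ Φ, x ∈ f → ¬ ({x, z} ⊆ f) → f ∈ P) := by
  set F1 : Finset W := {x, z, y1} with hF1
  set F2 : Finset W := {x, z, y2} with hF2
  have hF1Φ : F1 ∈ fc Φ {x, z} := by rw [hF]; exact Finset.mem_insert_self _ _
  have hF2Φ : F2 ∈ fc Φ {x, z} := by
    rw [hF]; exact Finset.mem_insert_of_mem (Finset.mem_singleton_self _)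
  have hg1Φ : g1 ∈ fc Φ {x, y1} := by
    rw [hg1]; exact Finset.mem_insert_of_mem (Finset.mem_singleton_self _)
  have hg2Φ : g2 ∈ fc Φ {x, y2} := by
    rw [hg2]; exact Finset.mem_insert_of_mem (Finset.mem_singleton_self _)
  have hF1P : F1 ∉ P := fun h => hPxz F1 h (mem_fc.1 hF1Φ).2
  have hF2P : F2 ∉ P := fun h => hPxz F2 h (mem_fc.1 hF2Φ).2
  have y1F1 : y1 ∈ F1 := by rw [hF1]; simp
  have y2F2 : y2 ∈ F2 := by rw [hF2]; simp
  have y1F2 : y1 ∉ F2 := by
    rw [hF2]
    simp [hy1x, hy1z, hy]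
  have y2F1 : y2 ∉ F1 := by
    rw [hF1]
    simp [hy2x, hy2z, hy.symm]
  have hxF1 : x ∈ F1 := by rw [hF1]; simp
  have hxF2 : x ∈ F2 := by rw [hF2]; simp
  have hF12 : F1 ≠ F2 := fun h => y1F2 (h ▸ y1F1)
  have hxg1 : x ∈ g1 := (mem_fc.1 hg1Φ).2 (by simp)
  have hyg1 : y1 ∈ g1 := (mem_fc.1 hg1Φ).2 (by simp)
  have hxg2 : x ∈ g2 := (mem_fc.1 hg2Φ).2 (by simp)
  have hyg2 : y2 ∈ g2 := (mem_fc.1 hg2Φ).2 (by simp)
  have e1 : ({x, y1} : Finset W) ∈ edg Φ :=
    mem_edg.2 ⟨g1, (mem_fc.1 hg1Φ).1, (mem_fc.1 hg1Φ).2, Finset.card_pair hy1x.symm⟩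
  have e2 : ({x, y2} : Finset W) ∈ edg Φ :=
    mem_edg.2 ⟨g2, (mem_fc.1 hg2Φ).1, (mem_fc.1 hg2Φ).2, Finset.card_pair hy2x.symm⟩
  have hFg1 : F1 ≠ g1 := by
    intro h
    have := hΦ.two _ e1
    rw [hg1, ← h, Finset.pair_eq_singleton, Finset.card_singleton] at this
    omega
  have hFg2 : F2 ≠ g2 := by
    intro h
    have := hΦ.two _ e2
    rw [hg2, ← h, Finset.pair_eq_singleton, Finset.card_singleton] at this
    omega
  have hg1F2 : g1 ≠ F2 := fun h => y1F2 (h ▸ hyg1)
  have hg2F1 : g2 ≠ F1 := fun h => y2F1 (h ▸ hyg2)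
  set Q : Finset (Finset W) := Φ.filter (fun f => (f ∈ P ∧ x ∈ f) ∨ (f = F1 ∧ g1 ∈ P) ∨
    (f = F2 ∧ g2 ∈ P)) with hQ
  have hQΦ : Q ⊆ Φ := Finset.filter_subset _ _
  have hQx : Q ⊆ fc Φ {x} := by
    intro f hf
    obtain ⟨h1, h2⟩ := Finset.mem_filter.1 hf
    refine mem_fc.2 ⟨h1, Finset.singleton_subset_iff.2 ?_⟩
    rcases h2 with h | h | h
    · exact h.2
    · rw [h.1]; exact hxF1
    · rw [h.1]; exact hxF2
  have hF1Q : F1 ∈ Q ↔ g1 ∈ P := by
    rw [hQ, Finset.mem_filter]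
    constructor
    · rintro ⟨_, h | h | h⟩
      · exact absurd h.1 hF1P
      · exact h.2
      · exact absurd h.1 hF12
    · intro h
      exact ⟨(mem_fc.1 hF1Φ).1, Or.inr (Or.inl ⟨rfl, h⟩)⟩
  have hF2Q : F2 ∈ Q ↔ g2 ∈ P := by
    rw [hQ, Finset.mem_filter]
    constructor
    · rintro ⟨_, h | h | h⟩
      · exact absurd h.1 hF2P
      · exact absurd h.1.symm hF12
      · exact h.2
    · intro h
      exact ⟨(mem_fc.1 hF2Φ).1, Or.inr (Or.inr ⟨rfl, h⟩)⟩
  have hg1Q : g1 ∈ Q ↔ g1 ∈ P := by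
    rw [hQ, Finset.mem_filter]
    constructor
    · rintro ⟨_, h | h | h⟩
      · exact h.1
      · exact h.2
      · exact absurd h.1 hg1F2
    · intro h
      exact ⟨(mem_fc.1 hg1Φ).1, Or.inl ⟨h, hxg1⟩⟩
  have hg2Q : g2 ∈ Q ↔ g2 ∈ P := by
    rw [hQ, Finset.mem_filter]
    constructor
    · rintro ⟨_, h | h | h⟩
      · exact h.1
      · exact absurd h.1 hg2F1
      · exact h.2
    · intro h
      exact ⟨(mem_fc.1 hg2Φ).1, Or.inl ⟨h, hxg2⟩⟩
  -- evenness away from `{x, z}`
  have hev1 : ∀ e ∈ edg Φ, x ∈ e → e ≠ {x, z} → Even (fc Q e).card := by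
    intro e he hxe hne
    obtain ⟨b, hb, rfl⟩ := edge_form he hxe
    have hbz : b ≠ z := fun h => hne (by rw [h])
    by_cases hb1 : b = y1
    · subst hb1
      exact parA hQΦ hg1 hFg1 (hF1Q.trans hg1Q.symm)
    · by_cases hb2 : b = y2
      · subst hb2
        exact parA hQΦ hg2 hFg2 (hF2Q.trans hg2Q.symm)
      · have e3 : fc Q {x, b} = fc P {x, b} := by
          ext f
          rw [mem_fc, mem_fc]
          refine and_congr_left fun hs => ?_
          have hxf : x ∈ f := hs (by simp)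
          have hbf : b ∈ f := hs (by simp)
          rw [hQ, Finset.mem_filter]
          constructor
          · rintro ⟨_, h | h | h⟩
            · exact h.1
            · exfalso
              rw [h.1, hF1] at hbf
              simp [hb, hbz, hb1] at hbf
            · exfalso
              rw [h.1, hF2] at hbf
              simp [hb, hbz, hb2] at hbf
          · intro h
            exact ⟨hP h, Or.inl ⟨h, hxf⟩⟩
        rw [e3]
        exact hev b hb hbz hb1 hb2 he
  have hxzE : ({x, z} : Finset W) ∈ edg Φ :=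
    mem_edg.2 ⟨F1, (mem_fc.1 hF1Φ).1, (mem_fc.1 hF1Φ).2, Finset.card_pair hxz⟩
  have hev2 : Even (fc Q {x, z}).card := by
    have h1 := dcount (x := x) hΦ.three hQx
    have hm : ({x, z} : Finset W) ∈ (edg Φ).filter (fun e => x ∈ e) :=
      Finset.mem_filter.2 ⟨hxzE, Finset.mem_insert_self _ _⟩
    rw [← Finset.add_sum_erase _ _ hm] at h1
    have h2 : Even (∑ e ∈ ((edg Φ).filter (fun e => x ∈ e)).erase {x, z}, (fc Q e).card) := by
      apply Finset.even_sum
      intro e he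
      obtain ⟨h3, h4⟩ := Finset.mem_erase.1 he
      obtain ⟨h5, h6⟩ := Finset.mem_filter.1 h4
      exact hev1 e h5 h6 h3
    exact (Nat.even_add.1 h1).2 h2
  have hlink := hΦ.link x Q hQx (by
    intro e he hxe
    by_cases hne : e = {x, z}
    · rw [hne]; exact hev2
    · exact hev1 e he hxe hne)
  rcases hlink with h | h
  · left
    refine ⟨fun hg => ?_, fun f hf hxf => ?_⟩
    · have := hF1Q.2 hg
      rw [h] at this
      exact absurd this (Finset.notMem_empty _)
    · have : f ∈ Q := by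
        rw [hQ, Finset.mem_filter]
        exact ⟨hP hf, Or.inl ⟨hf, hxf⟩⟩
      rw [h] at this
      exact absurd this (Finset.notMem_empty _)
  · right
    refine ⟨?_, fun f hf hxf hn => ?_⟩
    · apply hF1Q.1
      rw [h]
      exact mem_fc.2 ⟨(mem_fc.1 hF1Φ).1, Finset.singleton_subset_iff.2 hxF1⟩
    · have h1 : f ∈ Q := by
        rw [h]
        exact mem_fc.2 ⟨hf, Finset.singleton_subset_iff.2 hxf⟩
      rw [hQ, Finset.mem_filter] at h1
      rcases h1.2 with h2 | h2 | h2
      · exact h2.1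
      · exact absurd (h2.1 ▸ (mem_fc.1 hF1Φ).2) hn
      · exact absurd (h2.1 ▸ (mem_fc.1 hF2Φ).2) hn

theorem mid {Φ : Finset (Finset W)} (hΦ : IsTri Φ) {u v y : W} {g h : Finset W}
    {P : Finset (Finset W)} (hP : P ⊆ Φ) (hPuv : ∀ f ∈ P, ¬ ({u, v} ⊆ f))
    (hPy : ∀ f ∈ P, y ∈ f) (hyu : y ≠ u) (hyv : y ≠ v)
    (hg : fc Φ {u, y} = {{u, v, y}, g}) (hh : fc Φ {v, y} = {{u, v, y}, h})
    (hgh : g ∈ P ↔ h ∈ P)
    (hev : ∀ b, b ≠ y → b ≠ u → b ≠ v → {y, b} ∈ edg Φ → Even (fc P {y, b}).card) :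
    P = ∅ ∨ ∀ f ∈ Φ, y ∈ f → ¬ ({u, v} ⊆ f) → f ∈ P := by
  set F : Finset W := {u, v, y} with hF
  have hFΦ : F ∈ fc Φ {u, y} := by rw [hg]; exact Finset.mem_insert_self _ _
  have hgΦ : g ∈ fc Φ {u, y} := by
    rw [hg]; exact Finset.mem_insert_of_mem (Finset.mem_singleton_self _)
  have hhΦ : h ∈ fc Φ {v, y} := by
    rw [hh]; exact Finset.mem_insert_of_mem (Finset.mem_singleton_self _)
  have huvF : ({u, v} : Finset W) ⊆ F := by
    rw [hF]
    intro c hc
    rcases Finset.mem_insert.1 hc with rfl | hc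
    · simp
    · rw [Finset.mem_singleton] at hc
      rw [hc]; simp
  have hFP : F ∉ P := fun h => hPuv F h huvF
  have hyF : y ∈ F := by rw [hF]; simp
  have e1 : ({u, y} : Finset W) ∈ edg Φ :=
    mem_edg.2 ⟨g, (mem_fc.1 hgΦ).1, (mem_fc.1 hgΦ).2, Finset.card_pair hyu.symm⟩
  have e2 : ({v, y} : Finset W) ∈ edg Φ :=
    mem_edg.2 ⟨h, (mem_fc.1 hhΦ).1, (mem_fc.1 hhΦ).2, Finset.card_pair hyv.symm⟩
  have hFg : F ≠ g := by
    intro h
    have := hΦ.two _ e1
    rw [hg, ← h, Finset.pair_eq_singleton, Finset.card_singleton] at this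
    omega
  have hFh : F ≠ h := by
    intro h
    have := hΦ.two _ e2
    rw [hh, ← h, Finset.pair_eq_singleton, Finset.card_singleton] at this
    omega
  set Q : Finset (Finset W) := Φ.filter (fun f => f ∈ P ∨ (f = F ∧ g ∈ P)) with hQ
  have hQΦ : Q ⊆ Φ := Finset.filter_subset _ _
  have hQy : Q ⊆ fc Φ {y} := by
    intro f hf
    obtain ⟨h1, h2⟩ := Finset.mem_filter.1 hf
    refine mem_fc.2 ⟨h1, Finset.singleton_subset_iff.2 ?_⟩
    rcases h2 with h | h
    · exact hPy f h
    · rw [h.1]; exact hyF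
  have hFQ : F ∈ Q ↔ g ∈ P := by
    rw [hQ, Finset.mem_filter]
    constructor
    · rintro ⟨_, h | h⟩
      · exact absurd h hFP
      · exact h.2
    · intro h
      exact ⟨(mem_fc.1 hFΦ).1, Or.inr ⟨rfl, h⟩⟩
  have hgQ : g ∈ Q ↔ g ∈ P := by
    rw [hQ, Finset.mem_filter]
    constructor
    · rintro ⟨_, h | h⟩
      · exact h
      · exact h.2
    · intro h
      exact ⟨(mem_fc.1 hgΦ).1, Or.inl h⟩
  have hhQ : h ∈ Q ↔ h ∈ P := by
    rw [hQ, Finset.mem_filter]
    constructor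
    · rintro ⟨_, h | h⟩
      · exact h
      · exact absurd h.1.symm hFh
    · intro h
      exact ⟨(mem_fc.1 hhΦ).1, Or.inl h⟩
  have hlink := hΦ.link y Q hQy (by
    intro e he hye
    obtain ⟨b, hb, rfl⟩ := edge_form he hye
    by_cases hbu : b = u
    · subst hbu
      rw [Finset.pair_comm]
      exact parA hQΦ hg hFg (hFQ.trans hgQ.symm)
    · by_cases hbv : b = v
      · subst hbv
        rw [Finset.pair_comm]
        exact parA hQΦ hh hFh (hFQ.trans (hgh.trans hhQ.symm))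
      · have e3 : fc Q {y, b} = fc P {y, b} := by
          ext f
          rw [mem_fc, mem_fc]
          refine and_congr_left fun hs => ?_
          have hbf : b ∈ f := hs (by simp)
          rw [hQ, Finset.mem_filter]
          constructor
          · rintro ⟨_, h | h⟩
            · exact h
            · exfalso
              rw [h.1, hF] at hbf
              simp [hb, hbu, hbv] at hbf
          · intro h
            exact ⟨hP h, Or.inl h⟩
        rw [e3]
        exact hev b hb hbu hbv he)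
  rcases hlink with h | h
  · left
    apply Finset.eq_empty_of_forall_notMem
    intro f hf
    have : f ∈ Q := by
      rw [hQ, Finset.mem_filter]
      exact ⟨hP hf, Or.inl hf⟩
    rw [h] at this
    exact absurd this (Finset.notMem_empty _)
  · right
    intro f hf hyf hn
    have h1 : f ∈ Q := by
      rw [h]
      exact mem_fc.2 ⟨hf, Finset.singleton_subset_iff.2 hyf⟩
    rw [hQ, Finset.mem_filter] at h1
    rcases h1.2 with h2 | h2
    · exact h2
    · exact absurd (h2.1 ▸ huvF) hn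

theorem CONL (hA : S_APEX) (hC : S_CNT) (hE : S_CONE) : S_CONL := by
  intro W _ Φ u v hΦ huv he hG h5 w Ψ hΨ hev
  obtain ⟨y1, y2, g1, g2, h1, h2, A⟩ := hA W Φ u v hΦ huv he hG h5
  obtain ⟨_, hedg⟩ := hE W Φ u v hΦ huv he hG h5
  have hvmv : ∀ f : Finset W, v ∉ mv u v f := by
    intro f
    unfold mv
    split_ifs with h
    · simp [huv.symm]
    · exact h
  have hwmv : ∀ (c : W) (f : Finset W), c ≠ u → c ≠ v → (c ∈ mv u v f ↔ c ∈ f) := by
    intro c f hu hv
    unfold mv
    split_ifs with h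
    · simp [hu, hv]
    · rfl
  have humv : ∀ (f : Finset W), u ∈ mv u v f ↔ (u ∈ f ∨ v ∈ f) := by
    intro f
    unfold mv
    split_ifs with h
    · simp [h]
    · simp [h]
  set R : Finset (Finset W) := Φ.filter (fun f => ¬ ({u, v} ⊆ f)) with hR
  have hcontr : contr u v Φ = R.image (mv u v) := rfl
  set P : Finset (Finset W) := R.filter (fun f => mv u v f ∈ Ψ) with hPdef
  have hPR : P ⊆ R := Finset.filter_subset _ _
  have hPΦ : P ⊆ Φ := hPR.trans (Finset.filter_subset _ _)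
  have hPΨ : P.image (mv u v) = Ψ := by
    ext f'
    rw [Finset.mem_image]
    constructor
    · rintro ⟨f, hf, rfl⟩
      exact (Finset.mem_filter.1 hf).2
    · intro hf'
      have h3 := (mem_fc.1 (hΨ hf')).1
      rw [hcontr, Finset.mem_image] at h3
      obtain ⟨f, hf, rfl⟩ := h3
      exact ⟨f, Finset.mem_filter.2 ⟨hf, hf'⟩, rfl⟩
  have hPuv : ∀ f ∈ P, ¬ ({u, v} ⊆ f) := fun f hf => (Finset.mem_filter.1 (hPR hf)).2
  have hPvu : ∀ f ∈ P, ¬ ({v, u} ⊆ f) := by
    intro f hf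
    rw [Finset.pair_comm]
    exact hPuv f hf
  have hinj : Set.InjOn (mv u v) {f : Finset W | f ∈ P} := by
    intro f hf f' hf' hff
    exact A.inj ⟨hPΦ hf, hPuv f hf⟩ ⟨hPΦ hf', hPuv f' hf'⟩ hff
  have cnt1 : ∀ e : Finset W, v ∉ e → e.card = 2 → u ∉ e → (fc Ψ e).card = (fc P e).card := by
    intro e ha hb hc
    have := (hC W P u v e huv hPuv hinj ha hb).1 hc
    rwa [hPΨ] at this
  have cnt2 : ∀ b, b ≠ u → b ≠ v →
      (fc Ψ {u, b}).card = (fc P {u, b}).card + (fc P {v, b}).card := by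
    intro b hbu hbv
    have h3 := (hC W P u v {u, b} huv hPuv hinj (by simp [huv.symm, hbv.symm])
      (Finset.card_pair hbu.symm)).2 (by simp)
    have e3 : ({u, b} : Finset W).erase u = {b} := by
      ext c
      simp only [Finset.mem_erase, Finset.mem_insert, Finset.mem_singleton]
      constructor
      · rintro ⟨h4, h5 | h5⟩
        · exact absurd h5 h4
        · exact h5
      · rintro rfl
        exact ⟨hbu, Or.inr rfl⟩
    rwa [hPΨ, e3] at h3
  have hmem0 : ∀ e ∈ edg Φ, e ≠ {u, v} → mv u v e ∈ edg (contr u v Φ) := by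
    intro e he hne
    rw [hedg]
    exact Finset.mem_image_of_mem _ (Finset.mem_erase.2 ⟨hne, he⟩)
  have hmem1 : ∀ e ∈ edg Φ, v ∉ e → e ∈ edg (contr u v Φ) := by
    intro e he hv
    have h3 := hmem0 e he (by
      intro h
      apply hv
      rw [h]
      simp)
    have e3 : mv u v e = e := by
      unfold mv
      rw [if_neg hv]
    rwa [e3] at h3
  have hmem2 : ∀ b, b ≠ u → b ≠ v → {v, b} ∈ edg Φ → {u, b} ∈ edg (contr u v Φ) := by
    intro b hbu hbv hb
    have h3 := hmem0 {v, b} hb (by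
      intro h
      have : b ∈ ({u, v} : Finset W) := by rw [← h]; simp
      simp [hbu, hbv] at this)
    have e3 : mv u v {v, b} = {u, b} := by
      unfold mv
      rw [if_pos (by simp)]
      ext c
      simp only [Finset.mem_insert, Finset.mem_erase, Finset.mem_singleton]
      constructor
      · rintro (h4 | ⟨h4, h5 | h5⟩)
        · exact Or.inl h4
        · exact absurd h5 h4
        · exact Or.inr h5
      · rintro (h4 | h4)
        · exact Or.inl h4
        · exact Or.inr ⟨by rw [h4]; exact hbv, Or.inr h4⟩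
    rwa [e3] at h3
  have full : (∀ f ∈ R, w ∈ mv u v f → f ∈ P) → Ψ = fc (contr u v Φ) {w} := by
    intro h
    apply Finset.Subset.antisymm hΨ
    intro f' hf'
    obtain ⟨hf1, hf2⟩ := mem_fc.1 hf'
    rw [hcontr, Finset.mem_image] at hf1
    obtain ⟨f, hf, rfl⟩ := hf1
    exact (Finset.mem_filter.1 (h f hf (Finset.singleton_subset_iff.1 hf2))).2
  have empt : P = ∅ → Ψ = ∅ := by
    intro h
    rw [← hPΨ, h, Finset.image_empty]
  have hPw : ∀ f ∈ P, w ∈ mv u v f := by
    intro f hf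
    exact Finset.singleton_subset_iff.1 (mem_fc.1 (hΨ (Finset.mem_filter.1 hf).2)).2
  have hFP : ∀ y : W, ({u, v, y} : Finset W) ∉ P := by
    intro y h
    apply hPuv _ h
    intro c hc
    rcases Finset.mem_insert.1 hc with rfl | hc
    · simp
    · rw [Finset.mem_singleton] at hc
      rw [hc]; simp
  have hgh : ∀ (y : W) (g h : Finset W), y ≠ u → y ≠ v → fc Φ {u, y} = {{u, v, y}, g} →
      fc Φ {v, y} = {{u, v, y}, h} → Even (fc Ψ {u, y}).card → (g ∈ P ↔ h ∈ P) := by
    intro y g h hyu hyv hg hh hev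
    rw [cnt2 y hyu hyv, parB hPΦ hg (hFP y), parB hPΦ hh (hFP y)] at hev
    by_cases hgP : g ∈ P <;> by_cases hhP : h ∈ P
    · exact ⟨fun _ => hhP, fun _ => hgP⟩
    · rw [if_pos hgP, if_neg hhP] at hev
      exact absurd hev (by decide)
    · rw [if_neg hgP, if_pos hhP] at hev
      exact absurd hev (by decide)
    · exact ⟨fun h => absurd h hgP, fun h => absurd h hhP⟩
  have hedge : ∀ (y : W) (F g : Finset W), y ≠ u → fc Φ {u, y} = {F, g} →
      {u, y} ∈ edg Φ := by
    intro y F g hyu hg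
    have h3 : g ∈ fc Φ {u, y} := by
      rw [hg]; exact Finset.mem_insert_of_mem (Finset.mem_singleton_self _)
    exact mem_edg.2 ⟨g, (mem_fc.1 h3).1, (mem_fc.1 h3).2, Finset.card_pair hyu.symm⟩
  have E1 := hedge y1 _ _ A.y1u A.g1f
  have E2 := hedge y2 _ _ A.y2u A.g2f
  have E1' := hmem1 _ E1 (by simp [huv.symm, A.y1v.symm])
  have E2' := hmem1 _ E2 (by simp [huv.symm, A.y2v.symm])
  rcases eq_or_ne w v with rfl | hwv
  · left
    apply Finset.eq_empty_of_forall_notMem
    intro f' hf'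
    have h3 := mem_fc.1 (hΨ hf')
    rw [hcontr, Finset.mem_image] at h3
    obtain ⟨⟨f, hf, rfl⟩, h4⟩ := h3
    exact hvmv f (Finset.singleton_subset_iff.1 h4)
  rcases eq_or_ne w u with rfl | hwu
  · -- the vertex `u`
    have hG1 : g1 ∈ P ↔ h1 ∈ P :=
      hgh y1 g1 h1 A.y1u A.y1v A.g1f A.h1f (hev _ E1' (by simp))
    have one : ∀ b, b ≠ w → b ≠ v → b ≠ y1 → b ≠ y2 →
        ({w, b} ∈ edg Φ → Even (fc P {w, b}).card) ∧
        ({v, b} ∈ edg Φ → Even (fc P {v, b}).card) := by
      intro b hbu hbv hb1 hb2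
      have hcom : ¬ ({w, b} ∈ edg Φ ∧ {v, b} ∈ edg Φ) := by
        intro h
        rcases (A.common b hbu hbv).1 h with h | h
        · exact hb1 h
        · exact hb2 h
      constructor
      · intro hb
        have h3 : ({v, b} : Finset W) ∉ edg Φ := fun h => hcom ⟨hb, h⟩
        have h4 := hev _ (hmem1 _ hb (by simp [huv.symm, hbv.symm])) (by simp)
        rwa [cnt2 b hbu hbv, parC hPΦ (Finset.card_pair hbv.symm) h3, add_zero] at h4
      · intro hb
        have h3 : ({w, b} : Finset W) ∉ edg Φ := fun h => hcom ⟨h, hb⟩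
        have h4 := hev _ (hmem2 b hbu hbv hb) (by simp)
        rwa [cnt2 b hbu hbv, parC hPΦ (Finset.card_pair hbu.symm) h3, zero_add] at h4
    have S1 := oneSide hΦ hPΦ hPuv huv A.y12 A.y1u A.y1v A.y2u A.y2v A.faces A.g1f A.g2f
      (fun b c1 c2 c3 c4 c5 => (one b c1 c2 c3 c4).1 c5)
    have c1 : ({v, w} : Finset W) = {w, v} := Finset.pair_comm _ _
    have c2 : ∀ y : W, ({v, w, y} : Finset W) = {w, v, y} := by
      intro y
      exact Finset.insert_comm _ _ _
    have S2 := oneSide hΦ (x := v) (z := w) (g1 := h1) (g2 := h2) hPΦ hPvu huv.symm A.y12 A.y1v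
      A.y1u A.y2v A.y2u (by rw [c1, c2, c2]; exact A.faces) (by rw [c2]; exact A.h1f)
      (by rw [c2]; exact A.h2f) (fun b d1 d2 d3 d4 d5 => (one b d2 d1 d3 d4).2 d5)
    rcases S1 with ⟨n1, n2⟩ | ⟨n1, n2⟩
    · rcases S2 with ⟨m1, m2⟩ | ⟨m1, m2⟩
      · left
        apply empt
        apply Finset.eq_empty_of_forall_notMem
        intro f hf
        rcases (humv f).1 (hPw f hf) with h | h
        · exact n2 f hf h
        · exact m2 f hf h
      · exact absurd (hG1.2 m1) n1
    · rcases S2 with ⟨m1, m2⟩ | ⟨m1, m2⟩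
      · exact absurd (hG1.1 n1) m1
      · right
        apply full
        intro f hf hwf
        obtain ⟨hf1, hf2⟩ := Finset.mem_filter.1 hf
        rcases (humv f).1 hwf with h | h
        · exact n2 f hf1 h hf2
        · exact m2 f hf1 h (by rw [c1]; exact hf2)
  · -- the other vertices
    have hPw' : ∀ f ∈ P, w ∈ f := fun f hf => (hwmv w f hwu hwv).1 (hPw f hf)
    have hoth : ∀ b, b ≠ w → b ≠ u → b ≠ v → {w, b} ∈ edg Φ → Even (fc P {w, b}).card := by
      intro b hbw hbu hbv hb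
      have hv : v ∉ ({w, b} : Finset W) := by simp [hwv.symm, hbv.symm]
      have hu : u ∉ ({w, b} : Finset W) := by simp [hwu.symm, hbu.symm]
      have h3 := hev _ (hmem1 _ hb hv) (by simp)
      rwa [cnt1 _ hv (Finset.card_pair hbw.symm) hu] at h3
    have fin : (P = ∅ ∨ ∀ f ∈ Φ, w ∈ f → ¬ ({u, v} ⊆ f) → f ∈ P) →
        Ψ = ∅ ∨ Ψ = fc (contr u v Φ) {w} := by
      rintro (h | h)
      · exact Or.inl (empt h)
      · right
        apply full
        intro f hf hwf
        obtain ⟨hf1, hf2⟩ := Finset.mem_filter.1 hf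
        exact h f hf1 ((hwmv w f hwu hwv).1 hwf) hf2
    apply fin
    by_cases hw1 : w = y1
    · subst hw1
      exact mid hΦ hPΦ hPuv hPw' hwu hwv A.g1f A.h1f
        (hgh w g1 h1 A.y1u A.y1v A.g1f A.h1f (hev _ E1' (by simp))) hoth
    · by_cases hw2 : w = y2
      · subst hw2
        exact mid hΦ hPΦ hPuv hPw' hwu hwv A.g2f A.h2f
          (hgh w g2 h2 A.y2u A.y2v A.g2f A.h2f (hev _ E2' (by simp))) hoth
      · have hcom : ¬ ({u, w} ∈ edg Φ ∧ {v, w} ∈ edg Φ) := by
          intro h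
          rcases (A.common w hwu hwv).1 h with h | h
          · exact hw1 h
          · exact hw2 h
        have hlink := hΦ.link w P (by
          intro f hf
          exact mem_fc.2 ⟨hPΦ hf, Finset.singleton_subset_iff.2 (hPw' f hf)⟩) (by
          intro e hE' hwe
          obtain ⟨b, hb, rfl⟩ := edge_form hE' hwe
          by_cases hbu : b = u
          · subst hbu
            rw [Finset.pair_comm] at hE' ⊢
            have h3 : ({v, w} : Finset W) ∉ edg Φ := fun h => hcom ⟨hE', h⟩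
            have h4 := hev _ (hmem1 _ hE' (by simp [huv.symm, hwv.symm])) (by simp)
            rwa [cnt2 w hwu hwv, parC hPΦ (Finset.card_pair hwv.symm) h3, add_zero] at h4
          · by_cases hbv : b = v
            · subst hbv
              rw [Finset.pair_comm] at hE' ⊢
              have h3 : ({u, w} : Finset W) ∉ edg Φ := fun h => hcom ⟨h, hE'⟩
              have h4 := hev _ (hmem2 w hwu hwv hE') (by simp)
              rwa [cnt2 w hwu hwv, parC hPΦ (Finset.card_pair hwu.symm) h3, zero_add] at h4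
            · exact hoth b hb hbu hbv hE')
        rcases hlink with h | h
        · exact Or.inl h
        · right
          intro f hf hwf _
          rw [h]
          exact mem_fc.2 ⟨hf, Finset.singleton_subset_iff.2 hwf⟩

end Pool.Agent.R916.HB
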